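import Pool.Agent.Q170.TriPend

/-!
# MP_159dfd_an, Q1: a quantum graph with bridges and with infinitely many hot spots
-/

open Set Pool.Agent.Q170.QGraph

namespace Pool.Agent.Results.MP_159dfd_an.BridgesInfiniteHotSet

/-- `e` is a bridge: after removing the edge `e` there are two vertices which are no longer
joined. -/
def IsBridge (G : MGraph) (e : G.E) : Prop :=
  ∃ u v : G.V, ¬ Relation.EqvGen (fun a b => ∃ e', e' ≠ e ∧ G.src e' = a ∧ G.tgt e' = b) u v

theorem bridge : IsBridge Pool.Agent.Q170.TriPend.T (Sum.inr 0) := by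
  refine ⟨Sum.inr 0, Sum.inl 0, fun h => ?_⟩
  have key : ∀ x y : Fin 3 ⊕ Fin 3, Relation.EqvGen (fun a b => ∃ e' : Fin 3 ⊕ Fin 3,
      e' ≠ Sum.inr 0 ∧ (Sum.elim Sum.inl Sum.inl : Fin 3 ⊕ Fin 3 → Fin 3 ⊕ Fin 3) e' = a ∧
      (Sum.elim (fun i => Sum.inl (i + 1)) Sum.inr : Fin 3 ⊕ Fin 3 → Fin 3 ⊕ Fin 3) e' = b) x y →
      ((x = Sum.inr 0 → y = Sum.inr 0) ∧ (y = Sum.inr 0 → x = Sum.inr 0)) := by
    intro x y hxy
    induction hxy with
    | rel x y hxy =>
      obtain ⟨e, he, h1, h2⟩ := hxy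
      rcases e with i | i
      · subst h1; subst h2; simp
      · subst h1; subst h2
        refine ⟨by simp, fun h => absurd ?_ he⟩
        exact h
    | refl x => exact ⟨id, id⟩
    | symm x y _ ih => exact ⟨ih.2, ih.1⟩
    | trans x y z _ _ i1 i2 => exact ⟨fun h => i2.1 (i1.1 h), fun h => i1.2 (i2.2 h)⟩
  have := (key _ _ h).1 rfl
  simp at this

/-- **MP_159dfd_an, Q1** (negated form): there is a compact graph with a bridge for which `M` is
infinite. -/
theorem result : ∃ G : MGraph, (∃ e, IsBridge G e) ∧ (hotSet G).Infinite :=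
  ⟨Pool.Agent.Q170.TriPend.T, ⟨Sum.inr 0, bridge⟩, Pool.Agent.Q170.TriPend.hot_infinite⟩

end Pool.Agent.Results.MP_159dfd_an.BridgesInfiniteHotSet
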